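import Mathlib
import Pool.Agent.W556.CapStmt
import Pool.Agent.W556.CapConv

/-!
# A complete 3-manifold satisfying (*) without minimal surfaces of Morse index one

The definitions are in `Pool.Agent.W556.CapStmt`.
-/

set_option autoImplicit false

namespace Pool.Agent.Results.MP_ab8e05_gt.NoIndexOne

open Pool.Agent.W556.CapS

/-- There is a complete Riemannian manifold of dimension three (a closed hypersurface `M` of
Euclidean four-space with the induced metric), homeomorphic to three-dimensional Euclidean space,
which has no one-sided surfaces and satisfies (*), and in which no embedded minimal surface of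
finite area has Morse index one. -/
theorem result : ∃ (M : Set E4) (N : E4 → E4),
    IsCompleteHypersurface M N ∧ ¬ IsCompact M ∧
    Nonempty (M ≃ₜ EuclideanSpace ℝ (Fin 3)) ∧
    HasNoOneSidedSurface M ∧ SatisfiesStar M N ∧
    ∀ Γ : Set E4, IsFiniteAreaMinimal M Γ → ¬ HasMorseIndexOne M N Γ :=
  main

end Pool.Agent.Results.MP_ab8e05_gt.NoIndexOne
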